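import Mathlib

namespace Pool.Agent.H.MP_5bed1d_al.Key

theorem key {A : Type} (f : A → A → A) (o : A)
    (e0 : ∀ x0 x1 x2, f (f x0 x1) x2 = f (f (f (f x2 o) x0) (f (f x1 x2) o)) o)
    (e1 : f (f o o) o = o) (a b c : A) : f (f (f (f a b) c) o) o = f (f a b) c := by
  have e2 : ∀ x0 x1 x2, (f (f x0 x1) x2) = (f (f (f (f x2 o) x0) (f (f x1 x2) o)) o) := fun x0 x1 x2 => (e0 x0 x1 x2)
  have e3 : (f (f o o) o) = o := e1
  have e5 : ∀ x0, (f (f x0 o) o) = (f (f (f (f o o) x0) o) o) := fun x0 => ((e2 x0 o o)).trans ((congrArg (fun w => f (f (f (f o o) x0) w) o) e3))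
  have e6 : ∀ x0 x1, (f (f x0 (f (f o o) x1)) o) = (f (f x0 x1) o) := fun x0 x1 => ((e2 x0 (f (f o o) x1) o)).trans (((congrArg (fun w => f (f (f (f o o) x0) w) o) (e5 x1).symm)).trans ((e2 x0 x1 o).symm))
  have e9 : ∀ x0 x1, (f (f x0 (f (f (f o o) x1) o)) o) = (f (f x0 (f x1 o)) o) := fun x0 x1 => ((e2 x0 (f (f (f o o) x1) o) o)).trans (((congrArg (fun w => f (f (f (f o o) x0) (f w o)) o) (e5 x1).symm)).trans ((e2 x0 (f x1 o) o).symm))
  have e10 : ∀ x0 x1 x2, (f (f x0 (f x1 (f (f o o) x2))) o) = (f (f x0 (f x1 x2)) o) := fun x0 x1 x2 => ((e2 x0 (f x1 (f (f o o) x2)) o)).trans (((congrArg (fun w => f (f (f (f o o) x0) (f w o)) o) (e6 x1 x2))).trans ((e2 x0 (f x1 x2) o).symm))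
  have e15 : ∀ x0 x1, (f (f x0 (f o o)) x1) = (f (f (f (f x1 o) x0) (f x1 o)) o) := fun x0 x1 => ((e2 x0 (f o o) x1)).trans ((e9 (f (f x1 o) x0) x1))
  have e16 : ∀ x0, (f (f (f o x0) o) o) = (f (f x0 (f o o)) (f o o)) := fun x0 => ((congrArg (fun w => f (f (f w x0) o) o) e3.symm)).trans (((e6 (f (f (f o o) o) x0) o).symm).trans ((e15 x0 (f o o)).symm))
  have e17 : ∀ x0 x1 x2, (f (f x0 x1) (f (f (f o o) x2) o)) = (f (f x0 x1) (f x2 o)) := fun x0 x1 x2 => ((e2 x0 x1 (f (f (f o o) x2) o))).trans (((congrArg (fun w => f (f (f (f (f (f (f o o) x2) o) o) x0) w) o) (e9 x1 x2))).trans (((congrArg (fun w => f (f (f w x0) (f (f x1 (f x2 o)) o)) o) (e5 x2).symm)).trans ((e2 x0 x1 (f x2 o)).symm)))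
  have e19 : ∀ x0 x1 x2 x3, (f (f x0 x1) (f x2 (f (f o o) x3))) = (f (f x0 x1) (f x2 x3)) := fun x0 x1 x2 x3 => ((e2 x0 x1 (f x2 (f (f o o) x3)))).trans (((congrArg (fun w => f (f (f (f (f x2 (f (f o o) x3)) o) x0) w) o) (e10 x1 x2 x3))).trans (((congrArg (fun w => f (f (f w x0) (f (f x1 (f x2 x3)) o)) o) (e6 x2 x3))).trans ((e2 x0 x1 (f x2 x3)).symm)))
  have e20 : ∀ x0 x1, (f o (f x0 x1)) = (f o (f x0 (f (f o o) x1))) := fun x0 x1 => ((congrArg (fun w => f w (f x0 x1)) e3.symm)).trans (((e19 (f o o) o x0 x1).symm).trans ((congrArg (fun w => f w (f x0 (f (f o o) x1))) e3)))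
  have e23 : ∀ x0 x1 x2, (f (f (f (f (f o o) x0) o) x1) x2) = (f (f (f x0 o) x1) x2) := fun x0 x1 x2 => ((e2 (f (f (f o o) x0) o) x1 x2)).trans (((congrArg (fun w => f (f w (f (f x1 x2) o)) o) (e17 x2 o x0))).trans ((e2 (f x0 o) x1 x2).symm))
  have e24 : ∀ x0 x1 x2, (f (f x0 x1) (f (f o o) x2)) = (f (f x0 x1) x2) := fun x0 x1 x2 => ((e2 x0 x1 (f (f o o) x2))).trans (((congrArg (fun w => f w o) (e23 x2 x0 (f (f x1 (f (f o o) x2)) o)))).trans (((congrArg (fun w => f (f (f (f x2 o) x0) w) o) (e6 x1 x2))).trans ((e2 x0 x1 x2).symm)))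
  have e25 : ∀ x0, (f o x0) = (f o (f (f o o) x0)) := fun x0 => ((congrArg (fun w => f w x0) e3.symm)).trans (((e24 (f o o) o x0).symm).trans ((congrArg (fun w => f w (f (f o o) x0)) e3)))
  have e26 : ∀ x0 x1 x2, (f (f (f (f o o) x0) x1) x2) = (f (f x0 x1) x2) := fun x0 x1 x2 => ((e2 (f (f o o) x0) x1 x2)).trans (((congrArg (fun w => f (f w (f (f x1 x2) o)) o) (e24 x2 o x0))).trans ((e2 x0 x1 x2).symm))
  have e27 : ∀ x0 x1, (f (f x0 x1) o) = (f (f x0 (f (f x1 o) o)) o) := fun x0 x1 => ((e2 x0 x1 o)).trans ((e26 x0 (f (f x1 o) o) o))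
  have e28 : ∀ x0 x1 x2, (f (f x0 (f (f o o) x1)) x2) = (f (f x0 x1) x2) := fun x0 x1 x2 => ((e2 x0 (f (f o o) x1) x2)).trans (((congrArg (fun w => f (f (f (f x2 o) x0) w) o) (e26 x1 x2 o))).trans ((e2 x0 x1 x2).symm))
  have e30 : ∀ x0 x1, (f (f (f (f x0 o) o) o) x1) = (f (f x0 o) x1) := fun x0 x1 => ((e26 (f (f x0 o) o) o x1).symm).trans (((congrArg (fun w => f w x1) (e27 (f o o) x0).symm)).trans ((e26 x0 o x1)))
  have e31 : ∀ x0 x1 x2, (f (f x0 x1) (f (f x2 o) o)) = (f (f x0 x1) x2) := fun x0 x1 x2 => ((e2 x0 x1 (f (f x2 o) o))).trans (((congrArg (fun w => f (f w (f (f x1 (f (f x2 o) o)) o)) o) (e30 x2 x0))).trans (((congrArg (fun w => f (f (f (f x2 o) x0) w) o) (e27 x1 x2).symm)).trans ((e2 x0 x1 x2).symm)))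
  have e32 : ∀ x0, (f o (f (f x0 o) o)) = (f o x0) := fun x0 => ((e25 (f (f x0 o) o))).trans (((congrArg (fun w => f o w) (e31 o o x0))).trans ((e25 x0).symm))
  have e33 : ∀ x0 x1 x2, (f (f (f (f x0 o) o) x1) x2) = (f (f x0 x1) x2) := fun x0 x1 x2 => ((e2 (f (f x0 o) o) x1 x2)).trans (((congrArg (fun w => f (f w (f (f x1 x2) o)) o) (e31 x2 o x0))).trans ((e2 x0 x1 x2).symm))
  have e35 : ∀ x0 x1 x2, (f (f x0 (f (f x1 o) o)) x2) = (f (f x0 x1) x2) := fun x0 x1 x2 => ((e26 x0 (f (f x1 o) o) x2).symm).trans (((congrArg (fun w => f w x2) (e31 (f o o) x0 x1))).trans ((e26 x0 x1 x2)))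
  have e36 : ∀ x0 x1, (f o (f (f (f o o) x0) x1)) = (f o (f x0 x1)) := fun x0 x1 => ((e32 (f (f (f o o) x0) x1)).symm).trans (((congrArg (fun w => f o (f w o)) (e26 x0 x1 o))).trans ((e32 (f x0 x1))))
  have e38 : ∀ x0 x1, (f (f o x0) x1) = (f (f x1 (f (f x0 x1) o)) o) := fun x0 x1 => ((e2 o x0 x1)).trans ((e33 x1 (f (f x0 x1) o) o))
  have e39 : ∀ x0, (f (f o (f o o)) x0) = (f (f x0 (f x0 o)) o) := fun x0 => ((e15 o x0)).trans ((e33 x0 (f x0 o) o))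
  have e40 : ∀ x0 x1, (f o (f (f (f x0 o) o) x1)) = (f o (f x0 x1)) := fun x0 x1 => ((e32 (f (f (f x0 o) o) x1)).symm).trans (((congrArg (fun w => f o (f w o)) (e33 x0 x1 o))).trans ((e32 (f x0 x1))))
  have e41 : ∀ x0, (f (f o (f o o)) (f x0 o)) = (f (f (f x0 o) x0) o) := fun x0 => ((e15 o (f x0 o))).trans (((congrArg (fun w => f w o) (e30 x0 (f (f x0 o) o)))).trans ((e35 (f x0 o) x0 o)))
  have e42 : ∀ x0 x1, (f (f x0 (f o o)) (f x1 o)) = (f (f (f x1 x0) x1) o) := fun x0 x1 => ((e15 x0 (f x1 o))).trans (((congrArg (fun w => f w o) (e33 x1 x0 (f (f x1 o) o)))).trans ((e35 (f x1 x0) x1 o)))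
  have e43 : ∀ x0, (f o (f x0 (f o o))) = (f o (f (f o x0) (f o o))) := fun x0 => ((e32 (f x0 (f o o))).symm).trans (((e36 (f (f x0 (f o o)) o) o).symm).trans ((congrArg (fun w => f o w) (e38 x0 (f o o)).symm)))
  have e44 : ∀ x0, (f o (f o (f o x0))) = (f o (f o x0)) := fun x0 => ((e32 (f o (f o x0))).symm).trans (((congrArg (fun w => f o w) (e42 (f o x0) o).symm)).trans (((e43 (f (f o x0) (f o o)))).trans (((congrArg (fun w => f o (f w (f o o))) (e43 x0).symm)).trans (((e43 (f x0 (f o o))).symm).trans (((congrArg (fun w => f o w) (e42 x0 o))).trans ((e32 (f o x0))))))))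
  have e45 : (f (f (f o (f o o)) o) o) = (f (f o o) (f o o)) := ((congrArg (fun w => f (f w o) o) (e44 o).symm)).trans (((e16 (f o (f o o)))).trans (((congrArg (fun w => f w (f o o)) (e39 (f o o)))).trans (((e26 (f (f o o) o) o (f o o))).trans ((e26 o o (f o o))))))
  have e53 : ∀ x0, (f (f x0 (f o (f o o))) o) = (f (f x0 (f o o)) o) := fun x0 => ((e2 x0 (f o (f o o)) o)).trans (((congrArg (fun w => f (f (f (f o o) x0) w) o) e45)).trans (((e26 x0 (f (f o o) (f o o)) o)).trans ((e28 x0 (f o o) o))))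
  have e54 : ∀ x0, (f (f (f o (f o o)) o) x0) = (f o x0) := fun x0 => ((e26 (f o (f o o)) o x0).symm).trans (((congrArg (fun w => f w x0) (e53 (f o o)))).trans (((e26 (f o o) o x0)).trans ((congrArg (fun w => f w x0) e3))))
  have e56 : ∀ x0, (f (f x0 (f (f o (f o o)) o)) o) = (f (f x0 o) o) := fun x0 => ((e2 x0 (f (f o (f o o)) o) o)).trans (((congrArg (fun w => f (f (f (f o o) x0) (f w o)) o) e45)).trans (((e9 (f (f o o) x0) (f o o))).trans ((e2 x0 o o).symm)))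
  have e57 : ∀ x0, (f (f x0 o) (f o o)) = (f (f (f o x0) o) o) := fun x0 => ((e2 x0 o (f o o))).trans (((e56 (f (f (f o o) o) x0))).trans ((congrArg (fun w => f w o) (e26 o x0 o))))
  have e58 : (f o o) = (f o (f o o)) := ((e54 o).symm).trans (((e57 (f o o)).symm).trans ((congrArg (fun w => f w (f o o)) e3)))
  have e59 : ∀ x0, (f (f o o) x0) = (f (f x0 (f x0 o)) o) := fun x0 => ((congrArg (fun w => f w x0) e58)).trans ((e39 x0))
  have e60 : ∀ x0, (f (f o o) (f x0 o)) = (f (f (f x0 o) x0) o) := fun x0 => ((congrArg (fun w => f w (f x0 o)) e58)).trans ((e41 x0))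
  have e63 : ∀ x0, (f (f o o) (f o x0)) = (f o x0) := fun x0 => ((e31 o o (f o x0)).symm).trans (((e60 (f (f o x0) o))).trans (((congrArg (fun w => f (f w (f (f o x0) o)) o) (e57 x0).symm)).trans (((e2 (f o o) o x0).symm).trans ((congrArg (fun w => f w x0) e3)))))
  have e66 : ∀ x0, (f o (f o x0)) = (f o (f (f x0 o) (f o o))) := fun x0 => ((e32 (f o x0)).symm).trans ((congrArg (fun w => f o w) (e57 x0).symm))
  have e67 : ∀ x0 x1, (f (f x0 x1) (f x1 o)) = (f (f (f x1 x0) x1) o) := fun x0 x1 => ((e2 x0 x1 (f x1 o))).trans (((congrArg (fun w => f (f (f (f (f x1 o) o) x0) w) o) (e59 x1).symm)).trans (((e28 (f (f (f x1 o) o) x0) x1 o)).trans ((congrArg (fun w => f w o) (e33 x1 x0 x1)))))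
  have e68 : ∀ x0 x1, (f (f x0 (f o o)) (f x1 o)) = (f (f x0 x1) (f x1 o)) := fun x0 x1 => ((e42 x0 x1)).trans ((e67 x0 x1).symm)
  have e69 : ∀ x0, (f (f o o) (f x0 o)) = (f (f o x0) (f x0 o)) := fun x0 => ((e60 x0)).trans ((e67 o x0).symm)
  have e72 : ∀ x0 x1 x2, (f (f (f (f x0 o) x0) x1) x2) = (f (f x0 x1) x2) := fun x0 x1 x2 => ((e33 (f (f x0 o) x0) x1 x2).symm).trans (((congrArg (fun w => f (f (f w o) x1) x2) (e60 x0).symm)).trans (((congrArg (fun w => f w x2) (e26 (f x0 o) o x1))).trans ((e33 x0 x1 x2))))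
  have e73 : ∀ x0 x1, (f (f x0 x1) x0) = (f (f o x1) x0) := fun x0 x1 => ((e2 x0 x1 x0)).trans (((e72 x0 (f (f x1 x0) o) o)).trans ((e38 x1 x0).symm))
  have e81 : ∀ x0, (f o (f x0 (f o o))) = (f o (f o (f x0 o))) := fun x0 => ((e40 x0 (f o o)).symm).trans ((e66 (f x0 o)).symm)
  have e84 : ∀ x0 x1, (f (f (f o o) x0) x1) = (f (f (f x0 x1) x0) x1) := fun x0 x1 => ((e2 (f o o) x0 x1)).trans (((congrArg (fun w => f w o) (e68 (f x1 o) (f x0 x1)))).trans ((e2 (f x0 x1) x0 x1).symm))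
  have e86 : ∀ x0 x1, (f (f x0 (f o o)) x1) = (f (f x0 (f x1 o)) x1) := fun x0 x1 => ((e31 x0 (f o o) x1).symm).trans (((e68 x0 (f x1 o))).trans ((e31 x0 (f x1 o) x1)))
  have e91 : ∀ x0 x1, (f (f (f x0 o) o) x1) = (f (f (f o o) x0) x1) := fun x0 x1 => ((congrArg (fun w => f w x1) (e26 x0 o o).symm)).trans (((e72 (f (f (f o o) x0) o) o x1).symm).trans (((congrArg (fun w => f w x1) (e9 (f (f (f (f o o) x0) o) o) x0))).trans (((congrArg (fun w => f w x1) (e33 (f (f o o) x0) (f x0 o) o))).trans (((congrArg (fun w => f w x1) (e26 x0 (f x0 o) o))).trans ((congrArg (fun w => f w x1) (e59 x0).symm))))))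
  have e92 : ∀ x0 x1, (f (f x0 o) x1) = (f (f (f o x0) (f x0 o)) x1) := fun x0 x1 => ((e72 x0 o x1).symm).trans ((congrArg (fun w => f w x1) (e67 o x0).symm))
  have e93 : ∀ x0 x1, (f (f x0 o) x1) = (f (f x0 (f x0 o)) x1) := fun x0 x1 => ((e92 x0 x1)).trans (((congrArg (fun w => f w x1) (e73 (f x0 o) x0).symm)).trans ((e72 x0 (f x0 o) x1)))
  have e94 : ∀ x0, (f (f o o) x0) = (f (f x0 o) o) := fun x0 => ((e59 x0)).trans ((e93 x0 o).symm)
  have e96 : ∀ x0, (f o x0) = (f (f x0 o) (f o o)) := fun x0 => ((e63 x0).symm).trans (((e94 (f o x0))).trans ((e67 x0 o).symm))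
  have e98 : ∀ x0, (f (f o x0) (f o o)) = (f o (f x0 o)) := fun x0 => ((e73 (f o o) x0).symm).trans (((e91 x0 (f o o)).symm).trans ((e96 (f x0 o)).symm))
  have e100 : ∀ x0 x1 x2, (f (f x0 (f x1 x2)) x1) = (f (f x0 (f o x2)) x1) := fun x0 x1 x2 => ((e2 x0 (f x1 x2) x1)).trans (((congrArg (fun w => f (f (f (f x1 o) x0) (f w o)) o) (e73 x1 x2))).trans ((e2 x0 (f o x2) x1).symm))
  have e101 : ∀ x0, (f o (f x0 o)) = (f o (f (f o x0) o)) := fun x0 => ((e36 x0 o).symm).trans (((e98 (f (f o o) x0)).symm).trans (((e100 o (f o o) x0)).trans ((e98 (f o x0)))))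
  have e102 : ∀ x0, (f o (f o x0)) = (f o x0) := fun x0 => ((e32 (f o x0)).symm).trans (((e98 (f (f o x0) o)).symm).trans (((congrArg (fun w => f w (f o o)) (e101 x0).symm)).trans (((e98 (f x0 o))).trans ((e32 x0)))))
  have e104 : ∀ x0, (f o (f (f x0 (f o o)) o)) = (f o x0) := fun x0 => ((e101 (f x0 (f o o)))).trans (((congrArg (fun w => f o (f w o)) (e81 x0))).trans (((e101 (f o (f x0 o))).symm).trans (((e101 (f x0 o)).symm).trans ((e32 x0)))))
  have e105 : ∀ x0 x1, (f (f x0 (f o x1)) x0) = (f (f o x1) x0) := fun x0 x1 => ((e73 x0 (f o x1))).trans ((congrArg (fun w => f w x0) (e102 x1)))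
  have e107 : ∀ x0 x1, (f o (f x0 x1)) = (f o (f x0 (f o x1))) := fun x0 x1 => ((e20 x0 x1)).trans (((e104 (f x0 (f (f o o) x1))).symm).trans (((congrArg (fun w => f o (f w o)) (e100 x0 (f o o) x1))).trans ((e104 (f x0 (f o x1))))))
  have e108 : ∀ x0 x1, (f (f x0 (f x0 x1)) x0) = (f (f o x1) x0) := fun x0 x1 => ((e100 x0 x0 x1)).trans ((e105 x0 x1))
  have e111 : ∀ x0 x1, (f (f x0 x1) (f x1 o)) = (f (f (f o x0) x1) o) := fun x0 x1 => ((e67 x0 x1)).trans ((congrArg (fun w => f w o) (e73 x1 x0)))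
  have e114 : ∀ x0 x1 x2, (f (f x0 x1) x2) = (f (f x0 (f (f x1 x2) x1)) x2) := fun x0 x1 x2 => ((e28 x0 x1 x2).symm).trans (((e2 x0 (f (f o o) x1) x2)).trans (((congrArg (fun w => f (f (f (f x2 o) x0) (f w o)) o) (e84 x1 x2))).trans ((e2 x0 (f (f x1 x2) x1) x2).symm)))
  have e118 : ∀ x0 x1 x2, (f (f x0 x1) x2) = (f (f (f (f x0 x1) x0) x1) x2) := fun x0 x1 x2 => ((e26 x0 x1 x2).symm).trans (((e24 (f (f o o) x0) x1 x2).symm).trans (((congrArg (fun w => f w (f (f o o) x2)) (e84 x0 x1))).trans ((e24 (f (f x0 x1) x0) x1 x2))))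
  have e125 : ∀ x0, (f (f o o) (f x0 o)) = (f (f (f o o) x0) o) := fun x0 => ((e17 o o x0).symm).trans (((e94 (f (f (f o o) x0) o))).trans (((e91 (f (f o o) x0) o)).trans ((e28 (f o o) x0 o))))
  have e126 : ∀ x0 x1, (f (f x0 (f o o)) x1) = (f (f o (f x0 o)) x1) := fun x0 x1 => ((e33 x0 (f o o) x1).symm).trans ((congrArg (fun w => f w x1) (e96 (f x0 o)).symm))
  have e128 : ∀ x0 x1, (f (f (f x0 o) (f x1 o)) x1) = (f (f o x0) x1) := fun x0 x1 => ((e86 (f x0 o) x1).symm).trans ((congrArg (fun w => f w x1) (e96 x0).symm))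
  have e129 : ∀ x0 x1, (f o (f x0 x1)) = (f o (f (f o x0) x1)) := fun x0 x1 => ((e40 x0 x1).symm).trans (((congrArg (fun w => f o w) (e114 (f x0 o) o x1))).trans (((e107 (f (f x0 o) (f (f o x1) o)) x1)).trans (((congrArg (fun w => f o w) (e128 x0 (f o x1)))).trans ((e107 (f o x0) x1).symm))))
  have e132 : ∀ x0 x1, (f (f o x0) x1) = (f (f (f x0 x1) (f x1 o)) x1) := fun x0 x1 => ((congrArg (fun w => f w x1) (e104 x0).symm)).trans (((e126 (f x0 (f o o)) x1).symm).trans (((e100 (f x0 (f o o)) x1 o).symm).trans ((congrArg (fun w => f w x1) (e68 x0 x1)))))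
  have e135 : ∀ x0 x1, (f (f x0 (f x1 o)) x1) = (f (f o (f x0 o)) x1) := fun x0 x1 => ((e26 x0 (f x1 o) x1).symm).trans (((e26 (f (f o o) x0) (f x1 o) x1).symm).trans (((e86 (f (f o o) (f (f o o) x0)) x1).symm).trans (((congrArg (fun w => f w x1) (e108 (f o o) x0))).trans (((e126 (f o x0) x1)).trans ((congrArg (fun w => f w x1) (e129 x0 o).symm))))))
  have e156 : ∀ x0 x1, (f (f o x0) x1) = (f (f (f (f o x0) x1) o) x1) := fun x0 x1 => ((e132 x0 x1)).trans ((congrArg (fun w => f w x1) (e111 x0 x1)))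
  have e157 : ∀ x0 x1, (f (f x0 (f x1 o)) x0) = (f (f x1 (f x0 o)) x0) := fun x0 x1 => ((e73 x0 (f x1 o))).trans ((e135 x1 x0).symm)
  have e165 : ∀ x0 x1, (f (f x0 (f x1 (f x1 o))) o) = (f (f x0 (f x1 o)) o) := fun x0 x1 => ((e2 x0 (f x1 (f x1 o)) o)).trans (((congrArg (fun w => f (f (f (f o o) x0) (f w o)) o) (e59 x1).symm)).trans (((e26 x0 (f (f (f o o) x1) o) o)).trans (((congrArg (fun w => f (f x0 w) o) (e125 x1).symm)).trans ((e28 x0 (f x1 o) o)))))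
  have e166 : ∀ x0 x1, (f (f o x0) x1) = (f (f (f x0 x1) (f x1 o)) o) := fun x0 x1 => ((e35 o x0 x1).symm).trans (((e135 (f x0 o) x1).symm).trans (((e31 (f x0 o) (f x1 o) x1).symm).trans (((e67 (f x0 o) (f x1 o))).trans (((congrArg (fun w => f (f w (f x1 o)) o) (e93 x1 (f x0 o)))).trans (((e165 (f (f x1 (f x1 o)) (f x0 o)) x1).symm).trans (((congrArg (fun w => f w o) (e157 (f x1 (f x1 o)) x0))).trans (((e165 (f x0 (f (f x1 (f x1 o)) o)) x1)).trans (((congrArg (fun w => f (f (f x0 w) (f x1 o)) o) (e93 x1 o).symm)).trans ((congrArg (fun w => f w o) (e35 x0 x1 (f x1 o))))))))))))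
  have e172 : ∀ x0 x1, (f (f x0 (f o o)) x1) = (f (f x0 (f x1 (f x1 o))) x1) := fun x0 x1 => ((e31 x0 (f o o) x1).symm).trans (((congrArg (fun w => f (f x0 (f o o)) w) (e93 x1 o))).trans (((e68 x0 (f x1 (f x1 o)))).trans (((congrArg (fun w => f (f x0 (f x1 (f x1 o))) w) (e59 x1).symm)).trans ((e24 x0 (f x1 (f x1 o)) x1)))))
  have e186 : ∀ x0 x1, (f (f (f x0 o) x1) (f x1 o)) = (f (f o x0) (f x1 o)) := fun x0 x1 => ((e68 (f x0 o) x1).symm).trans ((congrArg (fun w => f w (f x1 o)) (e96 x0).symm))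
  have e252 : ∀ x0 x1, (f (f (f x0 x1) x0) x1) = (f (f o (f x1 o)) (f x0 x1)) := fun x0 x1 => ((e2 (f x0 x1) x0 x1)).trans ((e166 (f x1 o) (f x0 x1)).symm)
  have e253 : ∀ x0 x1, (f (f (f x0 (f x1 o)) x1) o) = (f (f o x0) (f x1 o)) := fun x0 x1 => ((e35 (f x0 (f x1 o)) x1 o).symm).trans ((e166 x0 (f x1 o)).symm)
  have e254 : ∀ x0 x1, (f (f o (f x0 o)) (f x1 o)) = (f (f o (f x0 x1)) (f x1 o)) := fun x0 x1 => ((congrArg (fun w => f w (f x1 o)) (e107 x0 o))).trans (((e166 (f x0 (f o o)) (f x1 o))).trans (((congrArg (fun w => f (f w (f (f x1 o) o)) o) (e68 x0 x1))).trans (((e35 (f (f x0 x1) (f x1 o)) x1 o)).trans ((e253 (f x0 x1) x1)))))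
  have e255 : ∀ x0 x1, (f (f o (f x0 x1)) (f x1 o)) = (f (f (f o x0) x1) o) := fun x0 x1 => ((e166 (f x0 x1) (f x1 o))).trans (((congrArg (fun w => f (f w (f (f x1 o) o)) o) (e111 x0 x1))).trans (((e35 (f (f (f o x0) x1) o) x1 o)).trans ((congrArg (fun w => f w o) (e156 x0 x1).symm))))
  have e256 : ∀ x0 x1, (f (f o (f x0 o)) (f x1 o)) = (f (f (f o x0) x1) o) := fun x0 x1 => ((e254 x0 x1)).trans ((e255 x0 x1))
  have e261 : ∀ x0 x1, (f (f o x0) (f x1 o)) = (f (f (f o (f x0 o)) x1) o) := fun x0 x1 => ((e186 x0 x1).symm).trans (((congrArg (fun w => f w (f x1 o)) (e28 x0 o x1).symm)).trans (((congrArg (fun w => f w (f x1 o)) (e28 x0 (f (f o o) o) x1).symm)).trans (((e68 (f x0 (f (f o o) (f (f o o) o))) x1).symm).trans (((congrArg (fun w => f w (f x1 o)) (e172 x0 (f o o)).symm)).trans (((e126 (f x0 (f o o)) (f x1 o))).trans (((e256 (f x0 (f o o)) x1)).trans ((congrArg (fun w => f (f w x1) o) (e107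 x0 o).symm))))))))
  have e262 : ∀ x0 x1, (f (f o x0) (f (f x1 x0) o)) = (f (f x1 x0) o) := fun x0 x1 => ((e261 x0 (f x1 x0))).trans (((congrArg (fun w => f w o) (e252 x1 x0).symm)).trans ((e118 x1 x0 o).symm))
  have e263 : ∀ x0 x1, (f (f x0 x1) o) = (f (f o o) (f (f x0 x1) o)) := fun x0 x1 => ((e262 x1 x0).symm).trans (((congrArg (fun w => f w (f (f x0 x1) o)) (e102 x1).symm)).trans (((e38 (f o x1) (f (f x0 x1) o))).trans (((congrArg (fun w => f (f (f (f x0 x1) o) (f w o)) o) (e262 x1 x0))).trans (((e35 (f (f x0 x1) o) (f x0 x1) o)).trans (((e67 o (f x0 x1)).symm).trans ((e69 (f x0 x1)).symm))))))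
  have e264 : ∀ x0 x1 x2, (f (f x0 x1) x2) = (f (f o o) (f (f x0 x1) x2)) := fun x0 x1 x2 => ((e2 x0 x1 x2)).trans (((e263 (f (f x2 o) x0) (f (f x1 x2) o))).trans ((congrArg (fun w => f (f o o) w) (e2 x0 x1 x2).symm)))
  exact ((e94 (f (f a b) c)).symm).trans ((e264 a b c).symm)

end Pool.Agent.H.MP_5bed1d_al.Key
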