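import Mathlib
import Pool.Agent.H.MP_5bed1d_al.Key

namespace Pool.Agent.H.MP_5bed1d_al.Defs

/-- algebras of type (2,0) -/
structure Alg where
  A : Type
  f : A → A → A
  o : A

/-- terms of type (2,0) -/
inductive Tm
  | var (n : ℕ)
  | zero
  | imp (s t : Tm)

def Tm.ev (M : Alg) (v : ℕ → M.A) : Tm → M.A
  | .var n => v n
  | .zero => M.o
  | .imp s t => M.f (s.ev M v) (t.ev M v)

/-- equational classes -/
def IsVar (X : Set Alg) : Prop :=
  ∃ E : Set (Tm × Tm), X = {M | ∀ e ∈ E, ∀ v, e.1.ev M v = e.2.ev M v}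

/-- the variety generated by the union -/
def join (X Y : Set Alg) : Set Alg := ⋂₀ {V | IsVar V ∧ X ∪ Y ⊆ V}

/-- implication zroupoids -/
def IZ : Set Alg :=
  {M | (∀ x y z, M.f (M.f x y) z = M.f (M.f (M.f (M.f z M.o) x) (M.f (M.f y z) M.o)) M.o) ∧
    M.f (M.f M.o M.o) M.o = M.o}

def ZM : Set Alg := {M | M ∈ IZ ∧ ∀ x y, M.f x y = M.o}

def Sat (M : Alg) (s t : Tm) : Prop := ∀ v, s.ev M v = t.ev M v

lemma mem_join {X Y : Set Alg} {M : Alg} : M ∈ join X Y ↔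
    ∀ s t, (∀ N ∈ X, Sat N s t) → (∀ N ∈ Y, Sat N s t) → Sat M s t := by
  constructor
  · intro h s t h1 h2
    exact h {N | ∀ e ∈ ({(s, t)} : Set (Tm × Tm)), ∀ v, e.1.ev N v = e.2.ev N v} ⟨⟨_, rfl⟩, by
      rintro N (hN | hN) e rfl
      exacts [h1 N hN, h2 N hN]⟩ _ rfl
  · rintro h V ⟨⟨E, rfl⟩, hV⟩ e he
    exact h _ _ (fun N hN => hV (Or.inl hN) e he) (fun N hN => hV (Or.inr hN) e he)

lemma IsVar.mem {X : Set Alg} (hX : IsVar X) {M : Alg}
    (h : ∀ s t, (∀ N ∈ X, Sat N s t) → Sat M s t) : M ∈ X := by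
  obtain ⟨E, rfl⟩ := hX
  exact fun e he => h _ _ fun N hN => hN e he

lemma join_var (X Y : Set Alg) : IsVar (join X Y) :=
  ⟨{e | (∀ N ∈ X, Sat N e.1 e.2) ∧ ∀ N ∈ Y, Sat N e.1 e.2}, by
    ext M
    rw [mem_join]
    exact ⟨fun h e he => h _ _ he.1 he.2, fun h s t h1 h2 => h (s, t) ⟨h1, h2⟩⟩⟩

lemma IsVar.inter {X Y : Set Alg} (hX : IsVar X) (hY : IsVar Y) : IsVar (X ∩ Y) := by
  obtain ⟨E, rfl⟩ := hX
  obtain ⟨F, rfl⟩ := hY
  refine ⟨E ∪ F, ?_⟩
  ext M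
  exact ⟨fun h e he => he.elim (h.1 e) (h.2 e),
    fun h => ⟨fun e he => h e (Or.inl he), fun e he => h e (Or.inr he)⟩⟩

lemma le_join_left (X Y : Set Alg) : X ⊆ join X Y := fun M hM => mem_join.2 fun _ _ h _ => h M hM
lemma le_join_right (X Y : Set Alg) : Y ⊆ join X Y := fun M hM => mem_join.2 fun _ _ _ h => h M hM
lemma join_le {X Y V : Set Alg} (hV : IsVar V) (h1 : X ⊆ V) (h2 : Y ⊆ V) : join X Y ⊆ V :=
  fun _ hM => hM V ⟨hV, Set.union_subset h1 h2⟩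

open Tm in
lemma IZ_var : IsVar IZ :=
  ⟨{(imp (imp (var 0) (var 1)) (var 2), imp (imp (imp (imp (var 2) zero) (var 0))
      (imp (imp (var 1) (var 2)) zero)) zero), (imp (imp zero zero) zero, zero)}, by
    ext M
    simp only [IZ, Set.mem_setOf_eq, Set.mem_insert_iff, Set.mem_singleton_iff, forall_eq_or_imp,
      forall_eq, ev]
    exact ⟨fun h => ⟨fun v => h.1 _ _ _, fun _ => h.2⟩, fun h =>
      ⟨fun x y z => h.1 (fun n => if n = 0 then x else if n = 1 then y else z), h.2 fun _ => M.o⟩⟩⟩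

open Tm in
lemma ZM_var : IsVar ZM := by
  have : IsVar {M : Alg | ∀ x y, M.f x y = M.o} := ⟨{(imp (var 0) (var 1), zero)}, by
    ext M
    simp only [Set.mem_setOf_eq, Set.mem_singleton_iff, forall_eq, ev]
    exact ⟨fun h v => h _ _, fun h x y => h (fun n => if n = 0 then x else y)⟩⟩
  exact IZ_var.inter this

lemma hom_ev {M N : Alg} (h : M.A → N.A) (h1 : ∀ a b, h (M.f a b) = N.f (h a) (h b))
    (h2 : h M.o = N.o) (v : ℕ → M.A) (t : Tm) : h (t.ev M v) = t.ev N (h ∘ v) := by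
  induction t with
  | var n => rfl
  | zero => exact h2
  | imp s t a b => simp only [Tm.ev, h1, a, b]

lemma Sat.quot {M N : Alg} (h : M.A → N.A) (h1 : ∀ a b, h (M.f a b) = N.f (h a) (h b))
    (h2 : h M.o = N.o) (hs : Function.Surjective h) {s t : Tm} (H : Sat M s t) : Sat N s t := by
  intro v
  obtain ⟨w, rfl⟩ := hs.comp_left v
  rw [← hom_ev h h1 h2, ← hom_ev h h1 h2, H]

lemma Sat.sub {M N N' : Alg} (h : M.A → N.A) (h1 : ∀ a b, h (M.f a b) = N.f (h a) (h b))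
    (h2 : h M.o = N.o) (k : M.A → N'.A) (k1 : ∀ a b, k (M.f a b) = N'.f (k a) (k b))
    (k2 : k M.o = N'.o) (hi : ∀ a b, h a = h b → k a = k b → a = b) {s t : Tm}
    (H : Sat N s t) (H' : Sat N' s t) : Sat M s t := fun v =>
  hi _ _ (by rw [hom_ev h h1 h2, hom_ev h h1 h2, H]) (by rw [hom_ev k k1 k2, hom_ev k k1 k2, H'])

def Z2 : Alg := ⟨Bool, fun _ _ => false, false⟩

lemma Z2_mem : Z2 ∈ ZM := ⟨⟨fun _ _ _ => rfl, rfl⟩, fun _ _ => rfl⟩

lemma inv_of {M : Alg} (hM : M ∈ IZ) {n : ℕ} {t : Tm} (h : Sat M (.var n) t) (ht : t ≠ .var n)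
    (a : M.A) : M.f (M.f a M.o) M.o = a := by
  cases t with
  | var m =>
    have : ∀ x : M.A, x = M.o := fun x => by
      have := h (fun i => if i = n then x else M.o)
      have hm : m ≠ n := fun e => ht (by rw [e])
      simpa [Tm.ev, hm] using this
    rw [this a, hM.2]
  | zero =>
    have : a = M.o := h (fun _ => a)
    rw [this, hM.2]
  | imp p q =>
    have : ∀ x : M.A, ∃ y z, x = M.f y z := fun x => ⟨_, _, h (fun _ => x)⟩
    obtain ⟨y, z, rfl⟩ := this a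
    obtain ⟨u, w, rfl⟩ := this y
    exact Key.key M.f M.o hM.1 hM.2 _ _ _

lemma ZM_sat {M : Alg} (hM : M ∈ ZM) {s t : Tm} (hs : ∀ n, s ≠ .var n) (ht : ∀ n, t ≠ .var n) :
    Sat M s t := by
  have : ∀ u : Tm, (∀ n, u ≠ .var n) → ∀ v, u.ev M v = M.o := by
    intro u hu v
    cases u with
    | var n => exact absurd rfl (hu n)
    | zero => rfl
    | imp p q => exact hM.2 _ _
  intro v
  rw [this s hs, this t ht]

theorem inv {X : Set Alg} (hX : IsVar X) (h1 : X ⊆ IZ) (h2 : ¬ ZM ⊆ X) :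
    ∀ M ∈ X, ∀ a, M.f (M.f a M.o) M.o = a := by
  intro M hM
  by_contra hn
  refine h2 fun N hN => hX.mem fun s t h => ?_
  by_cases e : s = t
  · rw [e]; exact fun _ => rfl
  refine ZM_sat hN ?_ ?_
  · rintro n rfl
    exact hn (inv_of (h1 hM) (h M hM) (Ne.symm e))
  · rintro n rfl
    exact hn (inv_of (h1 hM) (fun v => (h M hM v).symm) e)

end Pool.Agent.H.MP_5bed1d_al.Defs
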